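import Mathlib

set_option autoImplicit false

open MeasureTheory Filter Topology Set
open scoped ENNReal RealInnerProductSpace ContDiff

namespace Pool.Agent.H51.Neumann

/-- Euclidean space `ℝⁿ`. -/
abbrev E (n : ℕ) := EuclideanSpace ℝ (Fin n)

/-- `u ∈ H¹(Ω)` with weak gradient `g`: both are square integrable on `Ω` and
`∫_Ω u ∂_v φ = - ∫_Ω ⟨g, v⟩ φ` for all test functions `φ ∈ C_c^∞(Ω)` and all directions `v`. -/
structure IsH1 {n : ℕ} (Ω : Set (E n)) (u : E n → ℝ) (g : E n → E n) : Prop where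
  memLp : MemLp u 2 (volume.restrict Ω)
  memLp_grad : MemLp g 2 (volume.restrict Ω)
  weak : ∀ φ : E n → ℝ, ContDiff ℝ ∞ φ → HasCompactSupport φ → tsupport φ ⊆ Ω → ∀ v : E n,
    ∫ x in Ω, u x * fderiv ℝ φ x v = - ∫ x in Ω, ⟪g x, v⟫ * φ x

/-- `μ 0 ≤ μ 1 ≤ ...` is the list (with multiplicity) of the Neumann eigenvalues of `Ω`, whose
Neumann Laplacian has purely discrete spectrum: `μ` is monotone, tends to infinity and
there is a complete orthonormal system `u 0, u 1, ...` of `L²(Ω)` such that `u i ∈ H¹(Ω)` is a weak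
solution of `-Δ u = μ i * u` with Neumann boundary condition, i.e.
`∫_Ω ⟨∇ (u i), ∇ v⟩ = μ i * ∫_Ω u i * v` for all `v ∈ H¹(Ω)`. -/
structure IsNeumannSpectrum {n : ℕ} (Ω : Set (E n)) (μ : ℕ → ℝ) : Prop where
  mono : Monotone μ
  tendsto : Tendsto μ atTop atTop
  exists_basis : ∃ (u : ℕ → E n → ℝ) (g : ℕ → E n → E n),
    (∀ i, IsH1 Ω (u i) (g i)) ∧
    (∀ i k, ∫ x in Ω, u i x * u k x = if i = k then 1 else 0) ∧
    (∀ f : E n → ℝ, MemLp f 2 (volume.restrict Ω) → (∀ i, ∫ x in Ω, f x * u i x = 0) →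
      f =ᵐ[volume.restrict Ω] 0) ∧
    (∀ i v h, IsH1 Ω v h → ∫ x in Ω, ⟪g i x, h x⟫ = μ i * ∫ x in Ω, u i x * v x)

/-! ### Abstract energy inequality -/

section abstract_energy

variable {H K : Type*} [NormedAddCommGroup H] [InnerProductSpace ℝ H] [CompleteSpace H]
  [NormedAddCommGroup K] [InnerProductSpace ℝ K]

theorem energy_abs (U : ℕ → H) (hU : Orthonormal ℝ U)
    (hc : ∀ f : H, (∀ i, ⟪U i, f⟫ = 0) → f = 0) (G : ℕ → K) (μ : ℕ → ℝ) (hmono : Monotone μ)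
    (hGG : ∀ i k, ⟪G i, G k⟫ = if i = k then μ i else 0) (φ : H) (ψ : K)
    (hGψ : ∀ i, ⟪G i, ψ⟫ = μ i * ⟪U i, φ⟫) (j : ℕ) :
    μ j * (‖φ‖ ^ 2 - ∑ i ∈ Finset.range j, ⟪U i, φ⟫ ^ 2) ≤ ‖ψ‖ ^ 2 := by
  have hnn : ∀ i, 0 ≤ μ i := by
    intro i
    have h := hGG i i
    rw [if_pos rfl, real_inner_self_eq_norm_sq] at h
    rw [← h]; positivity
  have h1 : ∀ N, ∑ i ∈ Finset.range N, μ i * ⟪U i, φ⟫ ^ 2 ≤ ‖ψ‖ ^ 2 := by
    intro N
    have h0 : 0 ≤ ‖ψ - ∑ i ∈ Finset.range N, ⟪U i, φ⟫ • G i‖ ^ 2 := by positivity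
    rw [norm_sub_sq_real] at h0
    have e1 : ⟪ψ, ∑ i ∈ Finset.range N, ⟪U i, φ⟫ • G i⟫
        = ∑ i ∈ Finset.range N, μ i * ⟪U i, φ⟫ ^ 2 := by
      rw [inner_sum]
      refine Finset.sum_congr rfl fun i _ => ?_
      rw [inner_smul_right, real_inner_comm (G i) ψ, hGψ]; ring
    have e2 : ‖∑ i ∈ Finset.range N, ⟪U i, φ⟫ • G i‖ ^ 2
        = ∑ i ∈ Finset.range N, μ i * ⟪U i, φ⟫ ^ 2 := by
      rw [← real_inner_self_eq_norm_sq, sum_inner]
      refine Finset.sum_congr rfl fun i hi => ?_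
      rw [inner_sum, Finset.sum_eq_single i]
      · rw [inner_smul_left, inner_smul_right, hGG, if_pos rfl]
        simp only [conj_trivial]; ring
      · intro k _ hk
        rw [inner_smul_left, inner_smul_right, hGG, if_neg (Ne.symm hk)]; simp
      · intro h; exact absurd hi h
    rw [e1, e2] at h0
    linarith
  let b : HilbertBasis ℕ ℝ H := HilbertBasis.mkOfOrthogonalEqBot hU (by
    rw [Submodule.eq_bot_iff]
    intro f hf
    apply hc
    intro i
    exact (Submodule.mem_orthogonal _ _).1 hf (U i) (Submodule.subset_span ⟨i, rfl⟩))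
  have hb : ∀ i, b i = U i := by intro i; simp [b]
  have hs : HasSum (fun i => ⟪U i, φ⟫ ^ 2) (‖φ‖ ^ 2) := by
    have h := b.hasSum_inner_mul_inner φ φ
    rw [real_inner_self_eq_norm_sq] at h
    have e : (fun i => ⟪φ, b i⟫ * ⟪b i, φ⟫) = fun i => ⟪U i, φ⟫ ^ 2 := by
      funext i
      rw [hb, real_inner_comm (U i) φ]; ring
    rwa [e] at h
  have h2 := hs.tendsto_sum_nat
  have h3 : Tendsto (fun N => μ j * (∑ i ∈ Finset.range N, ⟪U i, φ⟫ ^ 2
      - ∑ i ∈ Finset.range j, ⟪U i, φ⟫ ^ 2)) atTop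
      (𝓝 (μ j * (‖φ‖ ^ 2 - ∑ i ∈ Finset.range j, ⟪U i, φ⟫ ^ 2))) :=
    (h2.sub_const _).const_mul _
  refine le_of_tendsto h3 ?_
  filter_upwards [eventually_ge_atTop j] with N hN
  have e3 := Finset.sum_range_add_sum_Ico (fun i => ⟪U i, φ⟫ ^ 2) hN
  have e4 := Finset.sum_range_add_sum_Ico (fun i => μ i * ⟪U i, φ⟫ ^ 2) hN
  have e5 : μ j * ∑ i ∈ Finset.Ico j N, ⟪U i, φ⟫ ^ 2
      ≤ ∑ i ∈ Finset.Ico j N, μ i * ⟪U i, φ⟫ ^ 2 := by
    rw [Finset.mul_sum]
    refine Finset.sum_le_sum fun i hi => ?_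
    exact mul_le_mul_of_nonneg_right (hmono (Finset.mem_Ico.1 hi).1) (by positivity)
  have e6 : 0 ≤ ∑ i ∈ Finset.range j, μ i * ⟪U i, φ⟫ ^ 2 :=
    Finset.sum_nonneg fun i _ => mul_nonneg (hnn i) (by positivity)
  have e7 := h1 N
  rw [← e3, add_sub_cancel_left]
  linarith

end abstract_energy

/-! ### The energy inequality on `Ω` -/

variable {n : ℕ} {Ω : Set (E n)} {μ : ℕ → ℝ}

theorem energy (u : ℕ → E n → ℝ) (g : ℕ → E n → E n) (hmono : Monotone μ)
    (hug : ∀ i, IsH1 Ω (u i) (g i))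
    (hon : ∀ i k, ∫ x in Ω, u i x * u k x = if i = k then 1 else 0)
    (hcomp : ∀ f : E n → ℝ, MemLp f 2 (volume.restrict Ω) →
      (∀ i, ∫ x in Ω, f x * u i x = 0) → f =ᵐ[volume.restrict Ω] 0)
    (heig : ∀ i v h, IsH1 Ω v h → ∫ x in Ω, ⟪g i x, h x⟫ = μ i * ∫ x in Ω, u i x * v x)
    (φ : E n → ℝ) (ψ : E n → E n) (hφ : IsH1 Ω φ ψ) (j : ℕ) :
    μ j * ((∫ x in Ω, φ x ^ 2) - ∑ i ∈ Finset.range j, (∫ x in Ω, u i x * φ x) ^ 2)
      ≤ ∫ x in Ω, ‖ψ x‖ ^ 2 := by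
  have inn : ∀ (a b : E n → ℝ) (ha : MemLp a 2 (volume.restrict Ω))
      (hb : MemLp b 2 (volume.restrict Ω)), ⟪ha.toLp a, hb.toLp b⟫ = ∫ x in Ω, a x * b x := by
    intro a b ha hb
    rw [L2.inner_def]
    refine integral_congr_ae ?_
    filter_upwards [ha.coeFn_toLp, hb.coeFn_toLp] with x h1 h2
    rw [h1, h2]; simp [mul_comm]
  have inn2 : ∀ (a b : E n → E n) (ha : MemLp a 2 (volume.restrict Ω))
      (hb : MemLp b 2 (volume.restrict Ω)), ⟪ha.toLp a, hb.toLp b⟫ = ∫ x in Ω, ⟪a x, b x⟫ := by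
    intro a b ha hb
    rw [L2.inner_def]
    refine integral_congr_ae ?_
    filter_upwards [ha.coeFn_toLp, hb.coeFn_toLp] with x h1 h2
    rw [h1, h2]
  have key := energy_abs (fun i => (hug i).memLp.toLp (u i)) (by
      rw [orthonormal_iff_ite]
      intro i k
      rw [inn, hon]) (by
      intro f hf
      have h1 : MemLp (f : E n → ℝ) 2 (volume.restrict Ω) := Lp.memLp f
      have h2 := hcomp f h1 (by
        intro i
        have := hf i
        rw [← Lp.toLp_coeFn f h1, inn] at this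
        rw [← this]
        exact integral_congr_ae (Eventually.of_forall fun x => mul_comm _ _))
      exact (Lp.eq_zero_iff_ae_eq_zero).2 h2)
    (fun i => (hug i).memLp_grad.toLp (g i)) μ hmono (by
      intro i k
      rw [inn2, heig i (u k) (g k) (hug k), hon]
      split_ifs <;> simp)
    (hφ.memLp.toLp φ) (hφ.memLp_grad.toLp ψ) (by
      intro i
      rw [inn2, inn, heig i φ ψ hφ]) j
  rw [← real_inner_self_eq_norm_sq, ← real_inner_self_eq_norm_sq, inn, inn2] at key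
  simp only [inn] at key
  simpa only [← sq, real_inner_self_eq_norm_sq] using key

/-- Smooth functions with bounded value and gradient are in `H¹(Ω)`. -/
theorem isH1_of_smooth (hfin : volume Ω ≠ ⊤) (f : E n → ℝ) (g : E n → E n)
    (hf : ContDiff ℝ ∞ f) (hgc : Continuous g) (hfg : ∀ x v, fderiv ℝ f x v = ⟪g x, v⟫)
    (C : ℝ) (hC : ∀ x, |f x| ≤ C) (hC' : ∀ x, ‖g x‖ ≤ C) : IsH1 Ω f g := by
  have : IsFiniteMeasure (volume.restrict Ω) := ⟨by
    rw [Measure.restrict_apply_univ]; exact lt_top_iff_ne_top.2 hfin⟩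
  refine ⟨?_, ?_, ?_⟩
  · exact MemLp.of_bound hf.continuous.aestronglyMeasurable C (Eventually.of_forall fun x => by
      rw [Real.norm_eq_abs]; exact hC x)
  · exact MemLp.of_bound hgc.aestronglyMeasurable C (Eventually.of_forall fun x => hC' x)
  · intro φ hφ hcs hsub v
    have hd : Continuous fun x => fderiv ℝ φ x v :=
      (hφ.continuous_fderiv (by simp)).clm_apply continuous_const
    have hd' : Continuous fun x => fderiv ℝ f x v :=
      (hf.continuous_fderiv (by simp)).clm_apply continuous_const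
    have hcd : HasCompactSupport fun x => fderiv ℝ φ x v := by
      have h1 := hcs.fderiv ℝ
      exact h1.comp_left (g := fun L : E n →L[ℝ] ℝ => L v) (by simp)
    have z1 : ∀ x, x ∉ Ω → fderiv ℝ φ x = 0 := by
      intro x hx
      have h1 : x ∉ tsupport (fderiv ℝ φ) := fun h => hx (hsub (tsupport_fderiv_subset ℝ h))
      exact image_eq_zero_of_notMem_tsupport h1
    have z2 : ∀ x, x ∉ Ω → φ x = 0 := by
      intro x hx
      exact image_eq_zero_of_notMem_tsupport fun h => hx (hsub h)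
    rw [setIntegral_eq_integral_of_forall_compl_eq_zero (fun x hx => by rw [z1 x hx]; simp),
      setIntegral_eq_integral_of_forall_compl_eq_zero (fun x hx => by rw [z2 x hx]; simp)]
    have i1 : Integrable (fun x => fderiv ℝ f x v * φ x) :=
      (hd'.mul hφ.continuous).integrable_of_hasCompactSupport (hcs.mul_left)
    have i2 : Integrable (fun x => f x * fderiv ℝ φ x v) :=
      (hf.continuous.mul hd).integrable_of_hasCompactSupport (hcd.mul_left)
    have i3 : Integrable (fun x => f x * φ x) :=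
      (hf.continuous.mul hφ.continuous).integrable_of_hasCompactSupport (hcs.mul_left)
    have := integral_mul_fderiv_eq_neg_fderiv_mul_of_integrable i1 i2 i3
      (fun x _ => (hf.differentiable (by simp)) x) (fun x _ => (hφ.differentiable (by simp)) x)
    rw [this]
    simp only [hfg]

theorem isH1_cos (hΩ : MeasurableSet Ω) (hfin : volume Ω ≠ ⊤) (ξ : E n) :
    IsH1 Ω (fun x => Real.cos ⟪ξ, x⟫) (fun x => (-Real.sin ⟪ξ, x⟫) • ξ) := by
  have hc : ContDiff ℝ ∞ (fun x : E n => ⟪ξ, x⟫) := contDiff_const.inner ℝ contDiff_id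
  refine isH1_of_smooth hfin _ _ (Real.contDiff_cos.comp hc) ?_ ?_ (1 + ‖ξ‖) ?_ ?_
  · exact ((Real.continuous_sin.comp hc.continuous).neg).smul continuous_const
  · intro x v
    have h1 : HasFDerivAt (fun x : E n => ⟪ξ, x⟫) (innerSL ℝ ξ) x := (innerSL ℝ ξ).hasFDerivAt
    have h2 := h1.cos
    rw [h2.fderiv]
    simp [inner_smul_left]
  · intro x
    exact (Real.abs_cos_le_one _).trans (by linarith [norm_nonneg ξ])
  · intro x
    rw [norm_smul, Real.norm_eq_abs, abs_neg]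
    calc |Real.sin ⟪ξ, x⟫| * ‖ξ‖ ≤ 1 * ‖ξ‖ :=
          mul_le_mul_of_nonneg_right (Real.abs_sin_le_one _) (norm_nonneg _)
      _ ≤ 1 + ‖ξ‖ := by linarith

theorem isH1_sin (hΩ : MeasurableSet Ω) (hfin : volume Ω ≠ ⊤) (ξ : E n) :
    IsH1 Ω (fun x => Real.sin ⟪ξ, x⟫) (fun x => (Real.cos ⟪ξ, x⟫) • ξ) := by
  have hc : ContDiff ℝ ∞ (fun x : E n => ⟪ξ, x⟫) := contDiff_const.inner ℝ contDiff_id
  refine isH1_of_smooth hfin _ _ (Real.contDiff_sin.comp hc) ?_ ?_ (1 + ‖ξ‖) ?_ ?_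
  · exact ((Real.continuous_cos.comp hc.continuous)).smul continuous_const
  · intro x v
    have h1 : HasFDerivAt (fun x : E n => ⟪ξ, x⟫) (innerSL ℝ ξ) x := (innerSL ℝ ξ).hasFDerivAt
    have h2 := h1.sin
    rw [h2.fderiv]
    simp [inner_smul_left]
  · intro x
    exact (Real.abs_sin_le_one _).trans (by linarith [norm_nonneg ξ])
  · intro x
    rw [norm_smul, Real.norm_eq_abs]
    calc |Real.cos ⟪ξ, x⟫| * ‖ξ‖ ≤ 1 * ‖ξ‖ :=
          mul_le_mul_of_nonneg_right (Real.abs_cos_le_one _) (norm_nonneg _)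
      _ ≤ 1 + ‖ξ‖ := by linarith

/-- The energy inequality for the plane waves `cos ⟨ξ,x⟩` and `sin ⟨ξ,x⟩`, added up. -/
theorem energy_wave (hΩ : MeasurableSet Ω) (hfin : volume Ω ≠ ⊤)
    (u : ℕ → E n → ℝ) (g : ℕ → E n → E n) (hmono : Monotone μ)
    (hug : ∀ i, IsH1 Ω (u i) (g i))
    (hon : ∀ i k, ∫ x in Ω, u i x * u k x = if i = k then 1 else 0)
    (hcomp : ∀ f : E n → ℝ, MemLp f 2 (volume.restrict Ω) →
      (∀ i, ∫ x in Ω, f x * u i x = 0) → f =ᵐ[volume.restrict Ω] 0)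
    (heig : ∀ i v h, IsH1 Ω v h → ∫ x in Ω, ⟪g i x, h x⟫ = μ i * ∫ x in Ω, u i x * v x)
    (ξ : E n) (j : ℕ) :
    μ j * (volume.real Ω - ∑ i ∈ Finset.range j, ((∫ x in Ω, u i x * Real.cos ⟪ξ, x⟫) ^ 2
      + (∫ x in Ω, u i x * Real.sin ⟪ξ, x⟫) ^ 2)) ≤ volume.real Ω * ‖ξ‖ ^ 2 := by
  have : IsFiniteMeasure (volume.restrict Ω) := ⟨by
    rw [Measure.restrict_apply_univ]; exact lt_top_iff_ne_top.2 hfin⟩
  have h1 := energy u g hmono hug hon hcomp heig _ _ (isH1_cos hΩ hfin ξ) j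
  have h2 := energy u g hmono hug hon hcomp heig _ _ (isH1_sin hΩ hfin ξ) j
  have hc : Continuous (fun x : E n => ⟪ξ, x⟫) := continuous_const.inner continuous_id
  have ic : Integrable (fun x : E n => Real.cos ⟪ξ, x⟫ ^ 2) (volume.restrict Ω) := by
    refine Integrable.of_bound ((Real.continuous_cos.comp hc).pow 2).aestronglyMeasurable 1
      (Eventually.of_forall fun x => ?_)
    rw [Real.norm_eq_abs, abs_of_nonneg (by positivity)]
    exact Real.cos_sq_le_one _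
  have is : Integrable (fun x : E n => Real.sin ⟪ξ, x⟫ ^ 2) (volume.restrict Ω) := by
    refine Integrable.of_bound ((Real.continuous_sin.comp hc).pow 2).aestronglyMeasurable 1
      (Eventually.of_forall fun x => ?_)
    rw [Real.norm_eq_abs, abs_of_nonneg (by positivity)]
    exact Real.sin_sq_le_one _
  have e1 : (∫ x in Ω, Real.cos ⟪ξ, x⟫ ^ 2) + ∫ x in Ω, Real.sin ⟪ξ, x⟫ ^ 2 = volume.real Ω := by
    rw [← integral_add ic is]
    simp [Real.cos_sq_add_sin_sq, Measure.real]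
  have e2 : (∫ x in Ω, ‖(-Real.sin ⟪ξ, x⟫) • ξ‖ ^ 2) + ∫ x in Ω, ‖(Real.cos ⟪ξ, x⟫) • ξ‖ ^ 2
      = volume.real Ω * ‖ξ‖ ^ 2 := by
    simp only [norm_smul, mul_pow, Real.norm_eq_abs, sq_abs, neg_sq]
    rw [integral_mul_const, integral_mul_const, ← add_mul, add_comm, e1]
  rw [Finset.sum_add_distrib]
  have := add_le_add h1 h2
  rw [e2, ← mul_add] at this
  rw [← e1]
  calc _ = μ j * ((∫ x in Ω, Real.cos ⟪ξ, x⟫ ^ 2)
        - ∑ i ∈ Finset.range j, (∫ x in Ω, u i x * Real.cos ⟪ξ, x⟫) ^ 2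
        + ((∫ x in Ω, Real.sin ⟪ξ, x⟫ ^ 2)
        - ∑ i ∈ Finset.range j, (∫ x in Ω, u i x * Real.sin ⟪ξ, x⟫) ^ 2)) := by ring
    _ ≤ _ := by rw [e1]; exact this

end Pool.Agent.H51.Neumann
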