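import Pool.Agent.H51.Neumann.Basic

set_option autoImplicit false

open MeasureTheory Filter Topology Set
open scoped RealInnerProductSpace ContDiff

namespace Pool.Agent.H51.Neumann

variable {n : ℕ}

theorem integrable_gauss {t : ℝ} (ht : 0 < t) :
    Integrable (fun ξ : E n => Real.exp (-t * ‖ξ‖ ^ 2)) := by
  have h := GaussianFourier.integrable_cexp_neg_mul_sq_norm_add (V := E n) (b := (t : ℂ))
    (by simpa using ht) 0 0
  have h2 := h.re
  refine h2.congr (Eventually.of_forall fun ξ => ?_)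
  simp only [RCLike.re_to_complex]
  have : (-(t : ℂ) * (‖ξ‖ : ℂ) ^ 2 + 0 * ((⟪(0 : E n), ξ⟫ : ℝ) : ℂ)) = ((-t * ‖ξ‖ ^ 2 : ℝ) : ℂ) := by
    push_cast; ring
  rw [this, Complex.exp_ofReal_re]

theorem integral_gauss {t : ℝ} (ht : 0 < t) :
    ∫ ξ : E n, Real.exp (-t * ‖ξ‖ ^ 2) = (Real.pi / t) ^ ((n : ℝ) / 2) := by
  have := GaussianFourier.integral_rexp_neg_mul_sq_norm (V := E n) ht
  simpa using this

theorem integral_gauss_cos {t : ℝ} (ht : 0 < t) (z : E n) :
    ∫ ξ : E n, Real.exp (-t * ‖ξ‖ ^ 2) * Real.cos ⟪ξ, z⟫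
      = (Real.pi / t) ^ ((n : ℝ) / 2) * Real.exp (-‖z‖ ^ 2 / (4 * t)) := by
  have h := GaussianFourier.integral_cexp_neg_mul_sq_norm_add (V := E n) (b := (t : ℂ))
    (by simpa using ht) Complex.I z
  have hi := GaussianFourier.integrable_cexp_neg_mul_sq_norm_add (V := E n) (b := (t : ℂ))
    (by simpa using ht) Complex.I z
  have h2 := integral_re hi
  have e1 : ∀ ξ : E n, RCLike.re (Complex.exp (-(t : ℂ) * (‖ξ‖ : ℂ) ^ 2
      + Complex.I * ((⟪z, ξ⟫ : ℝ) : ℂ))) = Real.exp (-t * ‖ξ‖ ^ 2) * Real.cos ⟪ξ, z⟫ := by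
    intro ξ
    rw [RCLike.re_to_complex, Complex.exp_re]
    congr 2
    · simp [← Complex.ofReal_pow]
    · simp [← Complex.ofReal_pow, real_inner_comm z ξ]
  simp only [e1] at h2
  rw [h2, h, RCLike.re_to_complex]
  have e2 : ((Real.pi : ℂ) / (t : ℂ)) ^ ((Module.finrank ℝ (E n) : ℂ) / 2)
      * Complex.exp (Complex.I ^ 2 * (‖z‖ : ℂ) ^ 2 / (4 * (t : ℂ)))
      = (((Real.pi / t) ^ ((n : ℝ) / 2) * Real.exp (-‖z‖ ^ 2 / (4 * t)) : ℝ) : ℂ) := by
    push_cast
    rw [Complex.ofReal_cpow (by positivity)]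
    congr 1
    · simp
    · rw [Complex.I_sq]; congr 1; ring
  rw [e2, Complex.ofReal_re]

theorem integral_gauss_sq (hn : 0 < n) {t : ℝ} (ht : 0 < t) :
    ∫ ξ : E n, ‖ξ‖ ^ 2 * Real.exp (-t * ‖ξ‖ ^ 2)
      = n / (2 * t) * (Real.pi / t) ^ ((n : ℝ) / 2) := by
  have : Nontrivial (E n) := by
    have : Nonempty (Fin n) := ⟨⟨0, hn⟩⟩
    infer_instance
  have e0 := integral_fun_norm_addHaar (volume : Measure (E n)) (fun y => Real.exp (-t * y ^ 2))
  have e2 := integral_fun_norm_addHaar (volume : Measure (E n))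
    (fun y => y ^ 2 * Real.exp (-t * y ^ 2))
  rw [integral_gauss ht] at e0
  have f0 : ∫ y in Ioi (0 : ℝ), y ^ (Module.finrank ℝ (E n) - 1) • Real.exp (-t * y ^ 2)
      = t ^ (-((n : ℝ) - 1 + 1) / 2) * (1 / 2) * Real.Gamma (((n : ℝ) - 1 + 1) / 2) := by
    rw [← integral_rpow_mul_exp_neg_mul_rpow (by norm_num) (by
      have : (1 : ℝ) ≤ n := by exact_mod_cast hn
      linarith) ht]
    refine setIntegral_congr_fun measurableSet_Ioi fun y hy => ?_
    have hy' : 0 < y := hy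
    simp only [smul_eq_mul]
    congr 1
    · rw [← Real.rpow_natCast]
      congr 1
      simp only [finrank_euclideanSpace, Fintype.card_fin]
      rw [Nat.cast_sub (by omega)]; simp
    · rw [← Real.rpow_natCast]; simp
  have f2 : ∫ y in Ioi (0 : ℝ), y ^ (Module.finrank ℝ (E n) - 1) • (y ^ 2 * Real.exp (-t * y ^ 2))
      = t ^ (-((n : ℝ) + 1 + 1) / 2) * (1 / 2) * Real.Gamma (((n : ℝ) + 1 + 1) / 2) := by
    rw [← integral_rpow_mul_exp_neg_mul_rpow (by norm_num) (by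
      have : (1 : ℝ) ≤ n := by exact_mod_cast hn
      linarith) ht]
    refine setIntegral_congr_fun measurableSet_Ioi fun y hy => ?_
    have hy' : 0 < y := hy
    simp only [smul_eq_mul]
    rw [← mul_assoc]
    congr 1
    · rw [← Real.rpow_natCast y 2, ← Real.rpow_natCast, ← Real.rpow_add hy']
      congr 1
      simp only [finrank_euclideanSpace, Fintype.card_fin]
      rw [Nat.cast_sub (by omega)]; push_cast; ring
    · rw [← Real.rpow_natCast]; simp
  rw [f0] at e0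
  rw [e2, f2, e0]
  have g1 : Real.Gamma (((n : ℝ) + 1 + 1) / 2) = (n : ℝ) / 2 * Real.Gamma ((n : ℝ) / 2) := by
    rw [← Real.Gamma_add_one (by positivity)]; congr 1; ring
  have g2 : t ^ (-((n : ℝ) + 1 + 1) / 2) = t ^ (-(n : ℝ) / 2) / t := by
    rw [← Real.rpow_sub_one ht.ne']; congr 1; ring
  rw [g1, g2, sub_add_cancel]
  simp only [nsmul_eq_mul, smul_eq_mul]
  field_simp

/-- Upper bound for the volume of the unit ball. -/
theorem ball_volume_le (hn : 0 < n) :
    volume.real (Metric.ball (0 : E n) 1)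
      ≤ (2 * Real.pi * Real.exp 1 / n) ^ ((n : ℝ) / 2) := by
  have hn' : (0 : ℝ) < n := by exact_mod_cast hn
  have ht : (0 : ℝ) < n / 2 := by positivity
  have h1 : ∫ ξ in Metric.ball (0 : E n) 1, Real.exp (-(n / 2 : ℝ))
      ≤ ∫ ξ : E n, Real.exp (-(n / 2 : ℝ) * ‖ξ‖ ^ 2) := by
    refine le_trans (setIntegral_mono_on (g := fun ξ : E n => Real.exp (-(n / 2 : ℝ) * ‖ξ‖ ^ 2))
      ?_ ((integrable_gauss ht).integrableOn) Metric.isOpen_ball.measurableSet ?_)
      (setIntegral_le_integral (integrable_gauss ht)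
        (Eventually.of_forall fun ξ => (Real.exp_pos _).le))
    · exact integrableOn_const (measure_ball_lt_top).ne enorm_ne_top
    · intro ξ hξ
      rw [mem_ball_zero_iff] at hξ
      apply Real.exp_le_exp.2
      have : ‖ξ‖ ^ 2 ≤ 1 := by nlinarith [norm_nonneg ξ]
      nlinarith
  rw [integral_gauss ht, setIntegral_const, smul_eq_mul] at h1
  have h2 : volume.real (Metric.ball (0 : E n) 1)
      ≤ (Real.pi / (n / 2)) ^ ((n : ℝ) / 2) * Real.exp (n / 2) := by
    have : Real.exp (-(n / 2 : ℝ)) * Real.exp (n / 2) = 1 := by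
      rw [← Real.exp_add]; simp
    calc volume.real (Metric.ball (0 : E n) 1)
        = volume.real (Metric.ball (0 : E n) 1) * Real.exp (-(n / 2 : ℝ)) * Real.exp (n / 2) := by
          rw [mul_assoc, this, mul_one]
      _ ≤ _ := mul_le_mul_of_nonneg_right h1 (Real.exp_pos _).le
  refine h2.trans (le_of_eq ?_)
  have : Real.exp (n / 2) = (Real.exp 1) ^ ((n : ℝ) / 2) := by
    rw [← Real.exp_mul]; congr 1; ring
  rw [this, ← Real.mul_rpow (by positivity) (by positivity)]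
  congr 1
  field_simp

/-- `∫_A e^{-c|z|²} ≤ |A| e^{-cρ²}` where `ρ² = (n/(2πe)) |A|^{2/n}`, for `c ≤ n/(2ρ²)`. -/
theorem gauss_set_le (hn : 0 < n) (A : Set (E n)) (hA : MeasurableSet A)
    (hfin : volume A ≠ ⊤) (hpos : 0 < volume.real A) (c : ℝ) (hc : 0 < c)
    (hcr : 2 * c * (n / (2 * Real.pi * Real.exp 1) * volume.real A ^ (2 / (n : ℝ))) ≤ n) :
    ∫ z in A, Real.exp (-c * ‖z‖ ^ 2)
      ≤ volume.real A * Real.exp (-c * (n / (2 * Real.pi * Real.exp 1)
        * volume.real A ^ (2 / (n : ℝ)))) := by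
  have hn' : (0 : ℝ) < n := by exact_mod_cast hn
  set V := volume.real A with hV
  set r := n / (2 * Real.pi * Real.exp 1) * V ^ (2 / (n : ℝ)) with hr
  have hVp : 0 < V ^ (2 / (n : ℝ)) := Real.rpow_pos_of_pos hpos _
  have hrp : 0 < r := by positivity
  -- q = 2 c r / n ∈ (0,1]
  set q := 2 * c * r / n with hq
  have hqp : 0 < q := by positivity
  have hq1 : q ≤ 1 := by rw [hq, div_le_one hn']; exact hcr
  set d := n / (2 * r) with hd
  have hdp : 0 < d := by positivity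
  have hcd : c = q * d := by rw [hq, hd]; field_simp
  set s := Real.exp (-(n / 2 : ℝ)) with hs
  have hsp : 0 < s := Real.exp_pos _
  -- pointwise bound
  have hpt : ∀ z : E n, Real.exp (-c * ‖z‖ ^ 2)
      ≤ q * Real.exp (-(n / 2 : ℝ) * q) / s * Real.exp (-d * ‖z‖ ^ 2)
        + (1 - q) * Real.exp (-(n / 2 : ℝ) * q) := by
    intro z
    -- e^{-q y} ≤ q e^{-y} + 1 - q with y = d‖z‖² - n/2
    have hy : ∀ y : ℝ, Real.exp (-q * y) ≤ q * Real.exp (-y) + (1 - q) := by
      intro y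
      have hcv := convexOn_exp.2 (mem_univ (-y)) (mem_univ (0 : ℝ)) hqp.le
        (by linarith : (0 : ℝ) ≤ 1 - q) (by ring)
      simp only [smul_eq_mul, mul_zero, add_zero, Real.exp_zero, mul_one] at hcv
      calc Real.exp (-q * y) = Real.exp (q * -y) := by congr 1; ring
        _ ≤ _ := hcv
    have h1 := hy (d * ‖z‖ ^ 2 - n / 2)
    have h2 : Real.exp (-c * ‖z‖ ^ 2)
        = Real.exp (-q * (d * ‖z‖ ^ 2 - n / 2)) * Real.exp (-(n / 2 : ℝ) * q) := by
      rw [← Real.exp_add, hcd]; congr 1; ring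
    have h3 : Real.exp (-(d * ‖z‖ ^ 2 - n / 2)) = Real.exp (-d * ‖z‖ ^ 2) / s := by
      rw [hs, ← Real.exp_sub]; congr 1; ring
    rw [h2]
    calc _ ≤ (q * Real.exp (-(d * ‖z‖ ^ 2 - n / 2)) + (1 - q)) * Real.exp (-(n / 2 : ℝ) * q) :=
          mul_le_mul_of_nonneg_right h1 (Real.exp_pos _).le
      _ = _ := by rw [h3]; ring
  have hdint : ∫ z in A, Real.exp (-d * ‖z‖ ^ 2) ≤ V * s := by
    refine (setIntegral_le_integral (integrable_gauss hdp)
        (Eventually.of_forall fun ξ => (Real.exp_pos _).le)).trans (le_of_eq ?_)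
    rw [integral_gauss hdp]
    have e1 : Real.pi / d = V ^ (2 / (n : ℝ)) * (Real.exp 1)⁻¹ := by
      rw [hd, hr]; field_simp
    rw [e1, Real.mul_rpow (by positivity) (by positivity), ← Real.rpow_mul hpos.le]
    have e2 : 2 / (n : ℝ) * (n / 2) = 1 := by field_simp
    rw [e2, Real.rpow_one, ← Real.exp_neg, ← Real.exp_mul, hs]
    congr 2; ring
  have hi1 : IntegrableOn (fun z : E n => q * Real.exp (-(n / 2 : ℝ) * q) / s
      * Real.exp (-d * ‖z‖ ^ 2)) A := ((integrable_gauss hdp).integrableOn).const_mul _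
  have hi2 : IntegrableOn (fun _ : E n => (1 - q) * Real.exp (-(n / 2 : ℝ) * q)) A :=
    integrableOn_const hfin enorm_ne_top
  calc ∫ z in A, Real.exp (-c * ‖z‖ ^ 2)
      ≤ ∫ z in A, (q * Real.exp (-(n / 2 : ℝ) * q) / s * Real.exp (-d * ‖z‖ ^ 2)
        + (1 - q) * Real.exp (-(n / 2 : ℝ) * q)) :=
        setIntegral_mono_on (integrable_gauss hc).integrableOn (hi1.add hi2) hA
          fun z _ => hpt z
    _ = q * Real.exp (-(n / 2 : ℝ) * q) / s * (∫ z in A, Real.exp (-d * ‖z‖ ^ 2))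
        + V * ((1 - q) * Real.exp (-(n / 2 : ℝ) * q)) := by
        rw [integral_add hi1 hi2, integral_const_mul, setIntegral_const, smul_eq_mul]
    _ ≤ q * Real.exp (-(n / 2 : ℝ) * q) / s * (V * s)
        + V * ((1 - q) * Real.exp (-(n / 2 : ℝ) * q)) := by
        gcongr
    _ = V * Real.exp (-(n / 2 : ℝ) * q) := by field_simp; ring
    _ = V * Real.exp (-c * r) := by
        congr 2; rw [hq]; field_simp

end Pool.Agent.H51.Neumann
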