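import Pool.Agent.H51.Neumann.Gauss

set_option autoImplicit false

open MeasureTheory Filter Topology Set
open scoped RealInnerProductSpace ContDiff

namespace Pool.Agent.H51.Neumann

variable {n : ℕ} {Ω : Set (E n)} {μ : ℕ → ℝ}

theorem sq_integral_eq (w : E n → ℝ) :
    (∫ x in Ω, w x) ^ 2
      = ∫ p, w p.1 * w p.2 ∂((volume.restrict Ω).prod (volume.restrict Ω)) := by
  rw [integral_prod_mul, sq]

/-- `∬_{Ω×Ω} e^{-c|x-y|²} ≤ V² e^{-cρ²}`. -/
theorem gauss_double_le (hn : 0 < n) (hΩ : MeasurableSet Ω)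
    (hfin : volume Ω ≠ ⊤) (hpos : 0 < volume.real Ω) (c : ℝ) (hc : 0 < c)
    (hcr : 2 * c * (n / (2 * Real.pi * Real.exp 1) * volume.real Ω ^ (2 / (n : ℝ))) ≤ n) :
    ∫ p, Real.exp (-c * ‖p.1 - p.2‖ ^ 2) ∂((volume.restrict Ω).prod (volume.restrict Ω))
      ≤ volume.real Ω ^ 2 * Real.exp (-c * (n / (2 * Real.pi * Real.exp 1)
        * volume.real Ω ^ (2 / (n : ℝ)))) := by
  have : IsFiniteMeasure (volume.restrict Ω) := ⟨by
    rw [Measure.restrict_apply_univ]; exact lt_top_iff_ne_top.2 hfin⟩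
  have hi : Integrable (fun p : E n × E n => Real.exp (-c * ‖p.1 - p.2‖ ^ 2))
      ((volume.restrict Ω).prod (volume.restrict Ω)) := by
    refine Integrable.of_bound (Continuous.aestronglyMeasurable (by fun_prop)) 1
      (Eventually.of_forall fun p => ?_)
    rw [Real.norm_eq_abs, abs_of_pos (Real.exp_pos _), Real.exp_le_one_iff]
    have : 0 ≤ c * ‖p.1 - p.2‖ ^ 2 := by positivity
    linarith
  rw [integral_prod _ hi]
  have h1 : ∀ x : E n, ∫ y in Ω, Real.exp (-c * ‖x - y‖ ^ 2)
      ≤ volume.real Ω * Real.exp (-c * (n / (2 * Real.pi * Real.exp 1)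
        * volume.real Ω ^ (2 / (n : ℝ)))) := by
    intro x
    have hA : MeasurableSet ((fun z : E n => z + x) ⁻¹' Ω) := by
      exact (measurable_id.add_const x) hΩ
    have hvol : volume ((fun z : E n => z + x) ⁻¹' Ω) = volume Ω := by
      rw [measure_preimage_add_right]
    have hreal : volume.real ((fun z : E n => z + x) ⁻¹' Ω) = volume.real Ω := by
      rw [Measure.real, Measure.real, hvol]
    have h := gauss_set_le hn _ hA (by rw [hvol]; exact hfin) (by rw [hreal]; exact hpos) c hc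
      (by rw [hreal]; exact hcr)
    rw [hreal] at h
    refine le_trans (le_of_eq ?_) h
    have mp : MeasurePreserving (fun z : E n => z + x) volume volume :=
      measurePreserving_add_right volume x
    have emb : MeasurableEmbedding (fun z : E n => z + x) :=
      (MeasurableEquiv.addRight x).measurableEmbedding
    rw [← mp.setIntegral_preimage_emb emb (fun y => Real.exp (-c * ‖x - y‖ ^ 2)) Ω]
    refine integral_congr_ae (Eventually.of_forall fun z => ?_)
    simp only
    rw [sub_add_cancel_right, norm_neg]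
  calc ∫ x in Ω, ∫ y in Ω, Real.exp (-c * ‖x - y‖ ^ 2)
      ≤ ∫ _x in Ω, volume.real Ω * Real.exp (-c * (n / (2 * Real.pi * Real.exp 1)
        * volume.real Ω ^ (2 / (n : ℝ)))) :=
        integral_mono hi.integral_prod_left (integrable_const _) fun x => h1 x
    _ = _ := by
        rw [integral_const]
        simp only [smul_eq_mul, Measure.real, Measure.restrict_apply_univ]
        ring

/-- The main inequality: for `t ≥ ρ²/n`,
`μ_j (1 - √j e^{-ρ²/(4t)}) ≤ n/(2t)`. -/
theorem main_ineq (hn : 0 < n) (hΩ : MeasurableSet Ω)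
    (hfin : volume Ω ≠ ⊤) (hpos : 0 < volume.real Ω) (hμ : IsNeumannSpectrum Ω μ)
    (j : ℕ) (t : ℝ) (ht : 0 < t)
    (htr : n / (2 * Real.pi * Real.exp 1) * volume.real Ω ^ (2 / (n : ℝ)) ≤ n * t) :
    μ j * (1 - Real.sqrt j * Real.exp (-(n / (2 * Real.pi * Real.exp 1)
        * volume.real Ω ^ (2 / (n : ℝ))) / (4 * t))) ≤ n / (2 * t) := by
  obtain ⟨u, g, hug, hon, hcomp, heig⟩ := hμ.exists_basis
  have hmono := hμ.mono
  have hn' : (0 : ℝ) < n := by exact_mod_cast hn
  set V := volume.real Ω with hV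
  set r := n / (2 * Real.pi * Real.exp 1) * V ^ (2 / (n : ℝ)) with hr
  have hfinm : IsFiniteMeasure (volume.restrict Ω) := ⟨by
    rw [Measure.restrict_apply_univ]; exact lt_top_iff_ne_top.2 hfin⟩
  set P := (volume.restrict Ω).prod (volume.restrict Ω) with hP
  have hμ0 : 0 ≤ μ j := by
    have h := heig j (u j) (g j) (hug j)
    rw [hon, if_pos rfl, mul_one] at h
    rw [← h]
    refine integral_nonneg fun x => ?_
    exact real_inner_self_nonneg
  have hL1 : ∀ i, Integrable (u i) (volume.restrict Ω) := fun i =>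
    (hug i).memLp.integrable (by norm_num)
  -- the kernel
  set F : E n × E n → ℝ := fun p => ∑ i ∈ Finset.range j, u i p.1 * u i p.2 with hF
  have hFint : Integrable F P := by
    refine integrable_finsetSum _ fun i _ => ?_
    exact (hL1 i).mul_prod (hL1 i)
  have hcosm : ∀ ξ : E n, AEStronglyMeasurable (fun p : E n × E n => Real.cos ⟪ξ, p.1 - p.2⟫) P :=
    fun ξ => Continuous.aestronglyMeasurable (by fun_prop)
  have hS : ∀ ξ : E n, ∑ i ∈ Finset.range j, ((∫ x in Ω, u i x * Real.cos ⟪ξ, x⟫) ^ 2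
      + (∫ x in Ω, u i x * Real.sin ⟪ξ, x⟫) ^ 2) = ∫ p, F p * Real.cos ⟪ξ, p.1 - p.2⟫ ∂P := by
    intro ξ
    have hc : Continuous (fun x : E n => Real.cos ⟪ξ, x⟫) := by fun_prop
    have hs : Continuous (fun x : E n => Real.sin ⟪ξ, x⟫) := by fun_prop
    have iC : ∀ i, Integrable (fun x => u i x * Real.cos ⟪ξ, x⟫) (volume.restrict Ω) := by
      intro i
      refine (hL1 i).mul_bdd (c := 1) hc.aestronglyMeasurable (Eventually.of_forall fun x => ?_)
      rw [Real.norm_eq_abs]; exact Real.abs_cos_le_one _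
    have iS : ∀ i, Integrable (fun x => u i x * Real.sin ⟪ξ, x⟫) (volume.restrict Ω) := by
      intro i
      refine (hL1 i).mul_bdd (c := 1) hs.aestronglyMeasurable (Eventually.of_forall fun x => ?_)
      rw [Real.norm_eq_abs]; exact Real.abs_sin_le_one _
    have e1 : ∀ i, (∫ x in Ω, u i x * Real.cos ⟪ξ, x⟫) ^ 2
      + (∫ x in Ω, u i x * Real.sin ⟪ξ, x⟫) ^ 2
      = ∫ p, u i p.1 * u i p.2 * Real.cos ⟪ξ, p.1 - p.2⟫ ∂P := by
      intro i
      rw [sq_integral_eq, sq_integral_eq, ← integral_add ((iC i).mul_prod (iC i))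
        ((iS i).mul_prod (iS i))]
      refine integral_congr_ae (Eventually.of_forall fun p => ?_)
      simp only
      rw [inner_sub_right, Real.cos_sub]; ring
    simp only [e1]
    rw [← integral_finsetSum]
    · refine integral_congr_ae (Eventually.of_forall fun p => ?_)
      simp only [hF]
      rw [Finset.sum_mul]
    · intro i _
      refine ((hL1 i).mul_prod (hL1 i)).mul_bdd (c := 1) (hcosm ξ)
        (Eventually.of_forall fun x => ?_)
      rw [Real.norm_eq_abs]; exact Real.abs_cos_le_one _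
  -- joint integrability
  have hJ : Integrable (fun q : E n × (E n × E n) =>
      Real.exp (-t * ‖q.1‖ ^ 2) * F q.2 * Real.cos ⟪q.1, q.2.1 - q.2.2⟫) (volume.prod P) := by
    have h1 : Integrable (fun q : E n × (E n × E n) => Real.exp (-t * ‖q.1‖ ^ 2) * F q.2)
      (volume.prod P) := (integrable_gauss ht).mul_prod hFint
    refine h1.mul_bdd (c := 1) (Continuous.aestronglyMeasurable (by fun_prop))
        (Eventually.of_forall fun x => ?_)
    rw [Real.norm_eq_abs]; exact Real.abs_cos_le_one _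
  set S : E n → ℝ := fun ξ => ∑ i ∈ Finset.range j, ((∫ x in Ω, u i x * Real.cos ⟪ξ, x⟫) ^ 2
      + (∫ x in Ω, u i x * Real.sin ⟪ξ, x⟫) ^ 2) with hSdef
  have hSg : ∀ ξ : E n, Real.exp (-t * ‖ξ‖ ^ 2) * S ξ
      = ∫ p, Real.exp (-t * ‖ξ‖ ^ 2) * F p * Real.cos ⟪ξ, p.1 - p.2⟫ ∂P := by
    intro ξ
    rw [hSdef]; simp only
    rw [hS ξ, ← integral_const_mul]
    refine integral_congr_ae (Eventually.of_forall fun p => ?_)
    simp only; ring
  have hSint : Integrable (fun ξ => Real.exp (-t * ‖ξ‖ ^ 2) * S ξ) := by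
    have := hJ.integral_prod_left
    refine this.congr (Eventually.of_forall fun ξ => ?_)
    exact (hSg ξ).symm
  set Gt := (Real.pi / t) ^ ((n : ℝ) / 2) with hGt
  have hGp : 0 < Gt := Real.rpow_pos_of_pos (by positivity) _
  have hSval : ∫ ξ, Real.exp (-t * ‖ξ‖ ^ 2) * S ξ
      = Gt * ∫ p, F p * Real.exp (-‖p.1 - p.2‖ ^ 2 / (4 * t)) ∂P := by
    simp only [hSg]
    rw [integral_integral_swap hJ, ← integral_const_mul]
    refine integral_congr_ae (Eventually.of_forall fun p => ?_)
    simp only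
    have := integral_gauss_cos (n := n) ht (p.1 - p.2)
    calc ∫ ξ : E n, Real.exp (-t * ‖ξ‖ ^ 2) * F p * Real.cos ⟪ξ, p.1 - p.2⟫
        = ∫ ξ : E n, F p * (Real.exp (-t * ‖ξ‖ ^ 2) * Real.cos ⟪ξ, p.1 - p.2⟫) := by
          refine integral_congr_ae (Eventually.of_forall fun ξ => ?_)
          simp only; ring
      _ = F p * (Gt * Real.exp (-‖p.1 - p.2‖ ^ 2 / (4 * t))) := by
          rw [integral_const_mul, this]
      _ = _ := by ring
  -- second moment integrable
  have hM : ∫ ξ : E n, ‖ξ‖ ^ 2 * Real.exp (-t * ‖ξ‖ ^ 2) = n / (2 * t) * Gt :=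
    integral_gauss_sq hn ht
  have hMint : Integrable (fun ξ : E n => ‖ξ‖ ^ 2 * Real.exp (-t * ‖ξ‖ ^ 2)) := by
    by_contra h
    rw [integral_undef h] at hM
    have : 0 < n / (2 * t) * Gt := by positivity
    linarith
  -- integrate the energy inequality
  have hI : μ j * (V * Gt - Gt * ∫ p, F p * Real.exp (-‖p.1 - p.2‖ ^ 2 / (4 * t)) ∂P)
      ≤ V * (n / (2 * t) * Gt) := by
    rw [← hSval, ← hM, hGt, ← integral_gauss ht, ← integral_const_mul, ← integral_const_mul,
      ← integral_sub ((integrable_gauss ht).const_mul V) hSint, ← integral_const_mul]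
    refine integral_mono ((((integrable_gauss ht).const_mul V).sub hSint).const_mul _)
      (hMint.const_mul _) fun ξ => ?_
    have := energy_wave hΩ hfin u g hmono hug hon hcomp heig ξ j
    have h2 := mul_le_mul_of_nonneg_right this (Real.exp_pos (-t * ‖ξ‖ ^ 2)).le
    simp only
    calc μ j * (V * Real.exp (-t * ‖ξ‖ ^ 2) - Real.exp (-t * ‖ξ‖ ^ 2) * S ξ)
        = μ j * (V - S ξ) * Real.exp (-t * ‖ξ‖ ^ 2) := by ring
      _ ≤ V * ‖ξ‖ ^ 2 * Real.exp (-t * ‖ξ‖ ^ 2) := h2
      _ = _ := by ring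
  -- Hilbert-Schmidt norm
  have hFsq : Integrable (fun p => F p ^ 2) P ∧ ∫ p, F p ^ 2 ∂P = j := by
    have e : (fun p => F p ^ 2) = fun p => ∑ i ∈ Finset.range j, ∑ k ∈ Finset.range j,
        (u i p.1 * u k p.1) * (u i p.2 * u k p.2) := by
      funext p
      simp only [hF]
      rw [sq, Finset.sum_mul_sum]
      refine Finset.sum_congr rfl fun i _ => Finset.sum_congr rfl fun k _ => ?_
      ring
    have iuk : ∀ i k, Integrable (fun x => u i x * u k x) (volume.restrict Ω) := fun i k =>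
      (hug i).memLp.integrable_mul (hug k).memLp
    have iprod : ∀ i k, Integrable (fun p : E n × E n => (u i p.1 * u k p.1)
        * (u i p.2 * u k p.2)) P := fun i k => (iuk i k).mul_prod (iuk i k)
    rw [e]
    refine ⟨integrable_finsetSum _ fun i _ => integrable_finsetSum _ fun k _ => iprod i k, ?_⟩
    rw [integral_finsetSum _ fun i _ => integrable_finsetSum _ fun k _ => iprod i k]
    have : ∀ i ∈ Finset.range j, ∫ p, ∑ k ∈ Finset.range j,
        (u i p.1 * u k p.1) * (u i p.2 * u k p.2) ∂P = 1 := by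
      intro i hi
      rw [integral_finsetSum _ fun k _ => iprod i k]
      rw [Finset.sum_eq_single i]
      · rw [hP, integral_prod_mul (fun x => u i x * u i x) (fun x => u i x * u i x), hon]; simp
      · intro k _ hk
        rw [hP, integral_prod_mul (fun x => u i x * u k x) (fun x => u i x * u k x), hon,
          if_neg (Ne.symm hk)]; simp
      · intro h; exact absurd hi h
    rw [Finset.sum_congr rfl this]; simp
  -- the Gaussian kernel
  have hG2 : ∫ p, Real.exp (-‖p.1 - p.2‖ ^ 2 / (4 * t)) ^ 2 ∂P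
      ≤ V ^ 2 * Real.exp (-r / (4 * t)) ^ 2 := by
    have h := gauss_double_le hn hΩ hfin hpos (1 / (2 * t)) (by positivity) (by
      rw [← hV, ← hr]
      have : 2 * (1 / (2 * t)) * r = r / t := by field_simp
      rw [this, div_le_iff₀ ht]; exact htr)
    rw [← hV, ← hr] at h
    have e1 : ∀ a : ℝ, Real.exp (-a / (4 * t)) ^ 2 = Real.exp (-(1 / (2 * t)) * a) := by
      intro a
      rw [← Real.exp_nat_mul]; congr 1; field_simp; ring
    simp only [e1]
    exact h
  have hG2int : Integrable (fun p : E n × E n => Real.exp (-‖p.1 - p.2‖ ^ 2 / (4 * t)) ^ 2) P := by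
    refine Integrable.of_bound (Continuous.aestronglyMeasurable (by fun_prop)) 1
      (Eventually.of_forall fun p => ?_)
    rw [Real.norm_eq_abs, abs_of_pos (by positivity)]
    refine pow_le_one₀ (Real.exp_pos _).le ?_
    rw [Real.exp_le_one_iff]
    have : 0 ≤ ‖p.1 - p.2‖ ^ 2 / (4 * t) := by positivity
    linarith [neg_div (4 * t) (‖p.1 - p.2‖ ^ 2)]
  have hFG : ∫ p, F p * Real.exp (-‖p.1 - p.2‖ ^ 2 / (4 * t)) ∂P
      ≤ V * (Real.sqrt j * Real.exp (-r / (4 * t))) := by
    have hFGint : Integrable (fun p : E n × E n => F p * Real.exp (-‖p.1 - p.2‖ ^ 2 / (4 * t)))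
        P := by
      refine hFint.mul_bdd (c := 1) (Continuous.aestronglyMeasurable (by fun_prop))
        (Eventually.of_forall fun p => ?_)
      rw [Real.norm_eq_abs, abs_of_pos (by positivity), Real.exp_le_one_iff]
      have : 0 ≤ ‖p.1 - p.2‖ ^ 2 / (4 * t) := by positivity
      linarith [neg_div (4 * t) (‖p.1 - p.2‖ ^ 2)]
    rcases Nat.eq_zero_or_pos j with hj | hj
    · have : F = fun _ => 0 := by
        funext p; simp [hF, hj]
      rw [this]; simp; positivity
    have hj' : (0 : ℝ) < j := by exact_mod_cast hj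
    have hsj : 0 < Real.sqrt j := Real.sqrt_pos.2 hj'
    set a := V * Real.exp (-r / (4 * t)) with ha
    have hap : 0 < a := by positivity
    set l := a / Real.sqrt j with hl
    have hlp : 0 < l := by positivity
    have h1 : ∫ p, F p * Real.exp (-‖p.1 - p.2‖ ^ 2 / (4 * t)) ∂P
        ≤ ∫ p, (l / 2 * F p ^ 2 + 1 / (2 * l) * Real.exp (-‖p.1 - p.2‖ ^ 2 / (4 * t)) ^ 2) ∂P := by
      refine integral_mono hFGint ((hFsq.1.const_mul _).add (hG2int.const_mul _)) fun p => ?_
      simp only
      have h3 : 0 ≤ (l * F p - Real.exp (-‖p.1 - p.2‖ ^ 2 / (4 * t))) ^ 2 / (2 * l) := by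
        positivity
      have h4 : (l * F p - Real.exp (-‖p.1 - p.2‖ ^ 2 / (4 * t))) ^ 2 / (2 * l)
          = l / 2 * F p ^ 2 + 1 / (2 * l) * Real.exp (-‖p.1 - p.2‖ ^ 2 / (4 * t)) ^ 2
            - F p * Real.exp (-‖p.1 - p.2‖ ^ 2 / (4 * t)) := by
        field_simp; ring
      linarith
    rw [integral_add (hFsq.1.const_mul _) (hG2int.const_mul _), integral_const_mul,
      integral_const_mul, hFsq.2] at h1
    have h5 : 1 / (2 * l) * ∫ p, Real.exp (-‖p.1 - p.2‖ ^ 2 / (4 * t)) ^ 2 ∂P
        ≤ 1 / (2 * l) * a ^ 2 := by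
      refine mul_le_mul_of_nonneg_left ?_ (by positivity)
      rw [ha, mul_pow]; exact hG2
    have h6 : l / 2 * j + 1 / (2 * l) * a ^ 2 = V * (Real.sqrt j * Real.exp (-r / (4 * t))) := by
      have hjj : Real.sqrt j * Real.sqrt j = j := Real.mul_self_sqrt hj'.le
      rw [hl]
      have : (j : ℝ) = Real.sqrt j * Real.sqrt j := hjj.symm
      have e1 : a / Real.sqrt j / 2 * j = a * Real.sqrt j / 2 := by
        nth_rewrite 2 [this]; field_simp
      have e2 : 1 / (2 * (a / Real.sqrt j)) * a ^ 2 = a * Real.sqrt j / 2 := by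
        field_simp
      rw [e1, e2, ha]; ring
    linarith
  -- conclusion
  have h7 : μ j * (V * Gt - Gt * (V * (Real.sqrt j * Real.exp (-r / (4 * t)))))
      ≤ V * (n / (2 * t) * Gt) := by
    refine le_trans (mul_le_mul_of_nonneg_left ?_ hμ0) hI
    have := mul_le_mul_of_nonneg_left hFG hGp.le
    linarith
  have hVG : 0 < V * Gt := by positivity
  have h8 : (μ j * (1 - Real.sqrt j * Real.exp (-r / (4 * t)))) * (V * Gt)
      ≤ (n / (2 * t)) * (V * Gt) := by
    calc _ = μ j * (V * Gt - Gt * (V * (Real.sqrt j * Real.exp (-r / (4 * t))))) := by ring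
      _ ≤ _ := h7
      _ = _ := by ring
  exact le_of_mul_le_mul_right h8 hVG

end Pool.Agent.H51.Neumann
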